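import Mathlib

set_option autoImplicit false

/-!
# The main terms of the Bateman-Horn formula for one polynomial increase at the rate `1 / log`
-/

namespace Pool.Agent.U53.BH

open Polynomial Finset Filter Asymptotics

/-- `log |f(n)|` -/
noncomputable def logAbs (f : ℤ[X]) (n : ℕ) : ℝ := Real.log |((f.eval (n : ℤ) : ℤ) : ℝ)|

lemma growth (f : ℤ[X]) (hd : 0 < f.natDegree) : ∃ n₀ : ℕ, 2 ≤ n₀ ∧ ∀ n : ℕ, n₀ ≤ n →
    0 < logAbs f n ∧ logAbs f n ≤ (f.natDegree + 1) * Real.log n ∧
      n * (logAbs f (n + 1) - logAbs f n) ≤ logAbs f n / 2 := by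
  classical
  set F : ℝ[X] := f.map (Int.castRingHom ℝ) with hF
  have hinj : Function.Injective (Int.castRingHom ℝ) := Int.cast_injective
  have hFd : F.natDegree = f.natDegree := natDegree_map_eq_of_injective hinj f
  have hF0 : F ≠ 0 := by
    intro h
    rw [h, natDegree_zero] at hFd
    omega
  have hev : ∀ n : ℕ, ((f.eval (n : ℤ) : ℤ) : ℝ) = F.eval (n : ℝ) := by
    intro n
    rw [hF, eval_map]
    have := eval₂_at_intCast (p := f) (Int.castRingHom ℝ) (n : ℤ)
    simp only [eq_intCast, Int.cast_natCast] at this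
    rw [this]
  -- size
  have hdegpos : 0 < F.degree := by
    rw [← natDegree_pos_iff_degree_pos, hFd]
    exact hd
  have h1 : Tendsto (fun x : ℝ => |eval x F|) atTop atTop := Polynomial.abs_tendsto_atTop F hdegpos
  have hup : (fun x : ℝ => eval x F) =O[atTop] fun x : ℝ => eval x (X ^ f.natDegree : ℝ[X]) := by
    apply Polynomial.isBigO_atTop_of_degree_le
    rw [degree_X_pow, ← hFd]
    exact degree_le_natDegree
  obtain ⟨A, hA0, hA⟩ := hup.exists_pos
  rw [IsBigOWith] at hA
  -- differences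
  set D : ℝ[X] := X * (taylor 1 F - F) with hD
  have hDd : D.degree ≤ F.degree := by
    have h2 : (taylor 1 F - F).degree < F.degree := by
      have := degree_sub_lt_left (p := taylor 1 F) (q := F) (degree_taylor F 1)
        (by
          intro h
          have h3 := natDegree_taylor F (1 : ℝ)
          rw [h, natDegree_zero, hFd] at h3
          omega) (leadingCoeff_taylor 1 F)
      rwa [degree_taylor] at this
    rw [hD]
    by_cases h3 : taylor 1 F - F = 0
    · rw [h3, mul_zero, degree_zero]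
      exact bot_le
    · rw [degree_mul, degree_X, degree_eq_natDegree h3, degree_eq_natDegree hF0]
      rw [degree_eq_natDegree h3, degree_eq_natDegree hF0] at h2
      have h4 : (taylor 1 F - F).natDegree < F.natDegree := by exact_mod_cast h2
      have h5 : 1 + (taylor 1 F - F).natDegree ≤ F.natDegree := by omega
      exact_mod_cast h5
  obtain ⟨B, hB0, hB⟩ := (Polynomial.isBigO_atTop_of_degree_le D F hDd).exists_pos
  rw [IsBigOWith] at hB
  have hev1 := tendsto_natCast_atTop_atTop (R := ℝ) |>.eventually hA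
  have hev2 := tendsto_natCast_atTop_atTop (R := ℝ) |>.eventually hB
  have hev3 := tendsto_natCast_atTop_atTop (R := ℝ) |>.eventually (h1.eventually_ge_atTop (Real.exp (2 * B) + 2))
  have hev4 := tendsto_natCast_atTop_atTop (R := ℝ) |>.eventually (eventually_ge_atTop (A + 2))
  obtain ⟨n₀, hn₀⟩ := eventually_atTop.1 (hev1.and (hev2.and (hev3.and hev4)))
  refine ⟨max n₀ 2, le_max_right _ _, fun n hn => ?_⟩
  obtain ⟨h2, h3, h4, h5⟩ := hn₀ n ((le_max_left _ _).trans hn)
  obtain ⟨_, _, h4', _⟩ := hn₀ (n + 1) (((le_max_left _ _).trans hn).trans (Nat.le_succ n))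
  have hn2 : 2 ≤ n := (le_max_right _ _).trans hn
  have hnr : (2 : ℝ) ≤ n := by exact_mod_cast hn2
  have hnpos : (0 : ℝ) < n := by linarith
  unfold logAbs
  rw [hev n, hev (n + 1)]
  have he : 0 < Real.exp (2 * B) := Real.exp_pos _
  have hpos : 0 < |eval (n : ℝ) F| := by linarith
  have hpos' : 0 < |eval ((n + 1 : ℕ) : ℝ) F| := by linarith
  refine ⟨Real.log_pos (by linarith), ?_, ?_⟩
  · -- upper bound
    have h6 : |eval (n : ℝ) F| ≤ (n : ℝ) ^ (f.natDegree + 1) := by
      have h7 : ‖eval (n : ℝ) F‖ ≤ A * ‖eval (n : ℝ) (X ^ f.natDegree : ℝ[X])‖ := h2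
      rw [Real.norm_eq_abs, Real.norm_eq_abs, eval_pow, eval_X,
        abs_of_nonneg (show (0 : ℝ) ≤ (n : ℝ) ^ f.natDegree by positivity)] at h7
      refine h7.trans ?_
      rw [pow_succ, mul_comm A]
      apply mul_le_mul_of_nonneg_left _ (by positivity)
      linarith
    have h8 := Real.log_le_log hpos h6
    rw [Real.log_pow] at h8
    push_cast at h8
    exact h8
  · -- increments
    have h7 : ‖eval (n : ℝ) D‖ ≤ B * ‖eval (n : ℝ) F‖ := h3
    rw [hD, eval_mul, eval_X, eval_sub, taylor_eval, Real.norm_eq_abs, Real.norm_eq_abs, abs_mul,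
      abs_of_pos hnpos] at h7
    have h8 : |eval ((n + 1 : ℕ) : ℝ) F| ≤ |eval (n : ℝ) F| * (1 + B / n) := by
      have h9 : |eval ((n : ℝ) + 1) F| ≤ |eval (n : ℝ) F| + |eval ((n : ℝ) + 1) F - eval (n : ℝ) F| := by
        have := abs_add_le (eval (n : ℝ) F) (eval ((n : ℝ) + 1) F - eval (n : ℝ) F)
        rwa [add_sub_cancel] at this
      have h10 : |eval ((n : ℝ) + 1) F - eval (n : ℝ) F| ≤ |eval (n : ℝ) F| * (B / n) := by
        rw [← mul_div_assoc, le_div_iff₀ hnpos]
        linarith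
      have e1 : ((n + 1 : ℕ) : ℝ) = (n : ℝ) + 1 := by push_cast; ring
      rw [e1]
      linarith
    have h11 := Real.log_le_log hpos' h8
    have hBn : 0 < B / n := div_pos hB0 hnpos
    rw [Real.log_mul hpos.ne' (by positivity)] at h11
    have h12 : Real.log (1 + B / n) ≤ B / n := by
      have := Real.log_le_sub_one_of_pos (x := 1 + B / n) (by positivity)
      linarith
    have h13 : n * (Real.log |eval ((n + 1 : ℕ) : ℝ) F| - Real.log |eval (n : ℝ) F|) ≤ B := by
      have : Real.log |eval ((n + 1 : ℕ) : ℝ) F| - Real.log |eval (n : ℝ) F| ≤ B / n := by linarith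
      have h14 := mul_le_mul_of_nonneg_left this hnpos.le
      rwa [mul_div_cancel₀ _ hnpos.ne'] at h14
    have h15 : 2 * B ≤ Real.log |eval (n : ℝ) F| := by
      rw [Real.le_log_iff_exp_le hpos]
      linarith
    linarith

/-- the increments of the two main terms -/
lemma increments (f : ℤ[X]) (hd : 0 < f.natDegree) : ∃ κ : ℝ, 0 < κ ∧ ∃ n₀ : ℕ, 2 ≤ n₀ ∧ ∀ n : ℕ, n₀ ≤ n →
    κ / Real.log (n + 1) ≤ 1 / logAbs f (n + 1) ∧
    κ / Real.log (n + 1) ≤ ((n + 1 : ℕ) : ℝ) / logAbs f (n + 1) - (n : ℝ) / logAbs f n := by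
  obtain ⟨n₀, h0, h⟩ := growth f hd
  refine ⟨1 / (2 * (f.natDegree + 1)), by positivity, n₀, h0, fun n hn => ?_⟩
  obtain ⟨h1, h2, h3⟩ := h n hn
  obtain ⟨h1', h2', -⟩ := h (n + 1) (hn.trans (Nat.le_succ n))
  have e1 : ((n + 1 : ℕ) : ℝ) = (n : ℝ) + 1 := by push_cast; ring
  rw [e1] at h2'
  have hn2 : (2 : ℝ) ≤ n := by exact_mod_cast h0.trans hn
  have hl : 0 < Real.log ((n : ℝ) + 1) := Real.log_pos (by linarith)
  have hd0 : (0 : ℝ) < f.natDegree + 1 := by positivity
  have key : 1 / (2 * ((f.natDegree : ℝ) + 1)) / Real.log ((n : ℝ) + 1) ≤ 1 / (2 * logAbs f (n + 1)) := by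
    rw [div_div]
    apply one_div_le_one_div_of_le (by positivity)
    nlinarith
  have key2 : 1 / (2 * logAbs f (n + 1)) ≤ 1 / logAbs f (n + 1) := by
    apply one_div_le_one_div_of_le h1'
    linarith
  refine ⟨key.trans key2, key.trans ?_⟩
  rw [e1, div_sub_div _ _ h1'.ne' h1.ne', div_le_div_iff₀ (by positivity) (by positivity)]
  have h4 : logAbs f n / 2 ≤ ((n : ℝ) + 1) * logAbs f n - logAbs f (n + 1) * n := by linarith
  nlinarith [mul_le_mul_of_nonneg_right h4 (show (0 : ℝ) ≤ 2 * logAbs f (n + 1) by positivity)]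

end Pool.Agent.U53.BH
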