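import Pool.Agent.H474R2.PG.Final

set_option autoImplicit false

/-!
# The error term of the Bateman-Horn formula for one irreducible polynomial

From the long strings of composite values of an irreducible polynomial
(`Pool.Agent.H474R2.PG.composite_strings` of the starting library). In every interval `[x, x + Y]` there is a
window of length `≫ log Y log log Y` such that for EVERY set `S` of integers and every regular comparison function
`G` the number of the `n ≤ N`, `n ∈ S`, for which `|f(n)|` is a prime differs from `G(N)` by `≫ log log Y` for at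
least half of the integers `N` of the window. The scheme is that of helper847 and helper912 for `n ^ 2 + 1` and
`n ^ 2 - 2`.
-/

namespace Pool.Agent.U53.BH

open Polynomial Finset MeasureTheory

lemma not_prime_of {v : ℤ} {p : ℕ} (hp : p.Prime) (h : (p : ℤ) ∣ v) (hlt : (p : ℤ) < v) : ¬ v.natAbs.Prime := by
  intro hv
  have h1 : p ∣ v.natAbs := Int.natCast_dvd.1 h
  rcases (Nat.dvd_prime hv).1 h1 with h2 | h2
  · exact hp.one_lt.ne' h2
  · omega

/-- long intervals without `n` for which `|f(n)|` is a prime -/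
theorem gap (f : ℤ[X]) (hf : Irreducible f) (hd : 0 < f.natDegree) :
    ∃ c : ℝ, 0 < c ∧ ∃ Y₀ : ℝ, ∀ Y : ℝ, Y₀ ≤ Y → ∀ M : ℕ, Y ≤ M →
    ∃ x : ℕ, M < x ∧ (x : ℝ) + c * Real.log Y * Real.log (Real.log Y) ≤ M + Y ∧
      ∀ k : ℕ, (k : ℝ) ≤ c * Real.log Y * Real.log (Real.log Y) →
        ¬ (f.eval ((x + k : ℕ) : ℤ)).natAbs.Prime := by
  have key : ∀ g : ℤ[X], Irreducible g → 0 < g.natDegree → 0 < g.leadingCoeff →
      ∃ c : ℝ, 0 < c ∧ ∃ Y₀ : ℝ, ∀ Y : ℝ, Y₀ ≤ Y → ∀ M : ℕ, Y ≤ M →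
    ∃ x : ℕ, M < x ∧ (x : ℝ) + c * Real.log Y * Real.log (Real.log Y) ≤ M + Y ∧
      ∀ k : ℕ, (k : ℝ) ≤ c * Real.log Y * Real.log (Real.log Y) →
        ¬ (g.eval ((x + k : ℕ) : ℤ)).natAbs.Prime := by
    intro g hg hgd hgl
    obtain ⟨c, hc, Y₀, h⟩ := Pool.Agent.H474R2.PG.composite_strings g hg hgd hgl
    refine ⟨c, hc, Y₀, fun Y hY M hM => ?_⟩
    obtain ⟨x, hx, hx2, hk⟩ := h Y hY M (by exact_mod_cast hM)
    lift x to ℕ using (by have := Int.natCast_nonneg M; omega)
    refine ⟨x, by exact_mod_cast hx, by exact_mod_cast hx2, fun k hk2 => ?_⟩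
    obtain ⟨p, hp1, -, hp3, hp4⟩ := hk k hk2
    have e : ((x + k : ℕ) : ℤ) = (x : ℤ) + (k : ℤ) := by push_cast; ring
    rw [e]
    exact not_prime_of hp1 hp3 hp4
  rcases lt_or_ge 0 f.leadingCoeff with h | h
  · exact key f hf hd h
  · have h1 : 0 < (-f).leadingCoeff := by
      rw [leadingCoeff_neg]
      have : f.leadingCoeff ≠ 0 := leadingCoeff_ne_zero.2 hf.ne_zero
      omega
    obtain ⟨c, hc, Y₀, h2⟩ := key (-f) ((Associated.refl f).neg_right.irreducible hf) (by rw [natDegree_neg]; exact hd) h1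
    refine ⟨c, hc, Y₀, fun Y hY M hM => ?_⟩
    obtain ⟨x, hx, hx2, hk⟩ := h2 Y hY M hM
    refine ⟨x, hx, hx2, fun k hk2 => ?_⟩
    have h3 := hk k hk2
    rwa [eval_neg, Int.natAbs_neg] at h3

open Classical in
/-- the number of the `n ∈ S` with `1 ≤ n ≤ N` and `|f(n)|` prime -/
noncomputable def P (f : ℤ[X]) (S : Set ℕ) (N : ℕ) : ℕ :=
  ((Icc 1 N).filter (fun n : ℕ => n ∈ S ∧ (f.eval (n : ℤ)).natAbs.Prime)).card

lemma P_eq_of_gap (f : ℤ[X]) (S : Set ℕ) {a b : ℕ} (hab : a ≤ b)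
    (h : ∀ n, a < n → n ≤ b → ¬ (f.eval (n : ℤ)).natAbs.Prime) : P f S b = P f S a := by
  unfold P
  congr 1
  ext n
  simp only [mem_filter, mem_Icc]
  constructor
  · rintro ⟨h1, h3⟩
    refine ⟨⟨h1.1, ?_⟩, h3⟩
    by_contra h4
    exact h n (by omega) (by omega) h3.2
  · rintro ⟨h1, h3⟩
    exact ⟨by omega, h3⟩

/-- increments of a comparison function -/
lemma incr {κ : ℝ} (hκ : 0 ≤ κ) {G : ℕ → ℝ} {a : ℕ} (ha : 2 ≤ a) (k : ℕ)
    (hG : ∀ n : ℕ, a ≤ n → n < a + k → κ / Real.log (n + 1) ≤ G (n + 1) - G n) :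
    κ * (k / Real.log ((a + k : ℕ) : ℝ)) ≤ G (a + k) - G a := by
  induction k with
  | zero => simp
  | succ k ih =>
    have h1 := hG (a + k) (by omega) (by omega)
    have ih' := ih fun n hn1 hn2 => hG n hn1 (by omega)
    have hl0 : 0 < Real.log ((a + k : ℕ) : ℝ) := Real.log_pos (by
      have : (2 : ℝ) ≤ ((a + k : ℕ) : ℝ) := by exact_mod_cast (show 2 ≤ a + k by omega)
      linarith)
    have hl : Real.log ((a + k : ℕ) : ℝ) ≤ Real.log ((a + (k + 1) : ℕ) : ℝ) := by
      apply Real.log_le_log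
      · have : (0 : ℕ) < a + k := by omega
        exact_mod_cast this
      · exact_mod_cast (show a + k ≤ a + (k + 1) by omega)
    have e1 : (((a + k : ℕ) : ℝ) + 1) = ((a + (k + 1) : ℕ) : ℝ) := by push_cast; ring
    rw [e1] at h1
    have e2 : a + k + 1 = a + (k + 1) := by ring
    rw [e2] at h1
    have h2 : κ * (((k + 1 : ℕ) : ℝ) / Real.log ((a + (k + 1) : ℕ) : ℝ)) =
        κ * (k / Real.log ((a + (k + 1) : ℕ) : ℝ)) + κ / Real.log ((a + (k + 1) : ℕ) : ℝ) := by
      push_cast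
      ring
    have h3 : κ * ((k : ℝ) / Real.log ((a + (k + 1) : ℕ) : ℝ)) ≤
        κ * (k / Real.log ((a + k : ℕ) : ℝ)) := by
      apply mul_le_mul_of_nonneg_left _ hκ
      exact div_le_div_of_nonneg_left (Nat.cast_nonneg k) hl0 hl
    rw [h2]
    linarith

open Classical in
/-- **The window theorem.** -/
theorem window (f : ℤ[X]) (hf : Irreducible f) (hd : 0 < f.natDegree) :
    ∃ c : ℝ, 0 < c ∧ ∃ Y₀ : ℝ, 3 ≤ Y₀ ∧ ∀ (Y : ℝ) (x : ℕ), Y₀ ≤ Y → Y ≤ x →
    ∃ a b : ℕ, x ≤ a ∧ (b : ℝ) ≤ x + Y ∧ (a : ℝ) + c * Real.log Y * Real.log (Real.log Y) ≤ b ∧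
      (∀ n : ℕ, a < n → n ≤ b → ¬ (f.eval (n : ℤ)).natAbs.Prime) ∧
      ∀ (S : Set ℕ) (κ : ℝ) (G : ℕ → ℝ), 0 ≤ κ →
        (∀ n : ℕ, a ≤ n → n < b → κ / Real.log (n + 1) ≤ G (n + 1) - G n) →
        ((b : ℝ) - a) / 2 ≤ (((Ioc a b).filter (fun N : ℕ =>
          c * κ * (Real.log Y / Real.log x) * Real.log (Real.log Y) ≤
            |(P f S N : ℝ) - G N|)).card : ℝ) := by
  obtain ⟨c, hc, Y₀, h⟩ := gap f hf hd
  have t1 : Filter.Tendsto (fun Y : ℝ => Real.log Y * Real.log (Real.log Y)) Filter.atTop Filter.atTop :=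
    Real.tendsto_log_atTop.atTop_mul_atTop₀ (Real.tendsto_log_atTop.comp Real.tendsto_log_atTop)
  obtain ⟨Y₁, hY₁⟩ := Filter.eventually_atTop.1 (t1.eventually_ge_atTop (8 / c))
  refine ⟨c / 32, by positivity, max (max Y₀ 3) Y₁, (le_max_right _ _).trans (le_max_left _ _),
    fun Y x hY hYx => ?_⟩
  have hY3 : (3 : ℝ) ≤ Y := ((le_max_right _ _).trans (le_max_left _ _)).trans hY
  have hYY1 : Y₁ ≤ Y := (le_max_right _ _).trans hY
  obtain ⟨y, hy1, hy2, hy3⟩ := h Y (((le_max_left _ _).trans (le_max_left _ _)).trans hY) x hYx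
  have hlogY : 1 < Real.log Y := by
    rw [Real.lt_log_iff_exp_lt (by linarith)]
    linarith [Real.exp_one_lt_d9]
  have hllY : 0 < Real.log (Real.log Y) := Real.log_pos hlogY
  set H : ℝ := c * Real.log Y * Real.log (Real.log Y) with hH
  have hH0 : 0 < H := by positivity
  have hH8 : 8 ≤ H := by
    have h1 := hY₁ Y hYY1
    rw [div_le_iff₀ hc] at h1
    rw [hH]; nlinarith
  have hx3 : (3 : ℝ) ≤ x := hY3.trans hYx
  have hx3' : 3 ≤ x := by exact_mod_cast hx3
  set K : ℕ := ⌊H⌋₊ with hK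
  have hK1 : (K : ℝ) ≤ H := Nat.floor_le hH0.le
  have hK2 : H < K + 1 := Nat.lt_floor_add_one H
  obtain ⟨a, rfl⟩ : ∃ a, y = a + 1 := ⟨y - 1, by omega⟩
  have hax : x ≤ a := by omega
  have hyb : ((a + (K + 1) : ℕ) : ℝ) ≤ x + Y := by
    push_cast at hy2 ⊢; linarith
  have hb1 : ((a + (K + 1) : ℕ) : ℝ) ≤ 2 * x := by linarith
  have hlx : 0 < Real.log x := Real.log_pos (by linarith)
  have hb2 : ((a + (K + 1) : ℕ) : ℝ) ≤ (x : ℝ) ^ 2 := by nlinarith
  have hempty : ∀ n : ℕ, a < n → n ≤ a + (K + 1) → ¬ (f.eval (n : ℤ)).natAbs.Prime := by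
    intro n hn1 hn2
    have h1 : n = a + 1 + (n - (a + 1)) := by omega
    rw [h1]
    apply hy3
    have h2 : n - (a + 1) ≤ K := by omega
    have h3 : ((n - (a + 1) : ℕ) : ℝ) ≤ K := by exact_mod_cast h2
    linarith
  refine ⟨a, a + (K + 1), hax, hyb, by push_cast; nlinarith, hempty, fun S κ G hκ hG => ?_⟩
  -- the count is constant in the window
  have hconst : ∀ N ∈ Ioc a (a + (K + 1)), P f S N = P f S a := by
    intro N hN
    rw [mem_Ioc] at hN
    exact P_eq_of_gap f S (by omega) fun n hn1 hn2 => hempty n hn1 (by omega)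
  set T : ℝ := c / 32 * κ * (Real.log Y / Real.log x) * Real.log (Real.log Y) with hT
  have hTH : T = κ * (H / (32 * Real.log x)) := by
    rw [hT, hH]; field_simp
  rcases hκ.eq_or_lt with h0 | hκ0
  · -- `κ = 0`
    have hT0 : T = 0 := by rw [hTH, ← h0]; ring
    have : (Ioc a (a + (K + 1))).filter (fun N : ℕ => T ≤ |(P f S N : ℝ) - G N|) =
        Ioc a (a + (K + 1)) := by
      apply filter_true_of_mem
      intro N _
      rw [hT0]; positivity
    rw [this, Nat.card_Ioc]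
    have e1 : a + (K + 1) - a = K + 1 := by omega
    rw [e1]
    push_cast
    have : (0 : ℝ) ≤ K := Nat.cast_nonneg K
    linarith
  -- the bad set
  set B := (Ioc a (a + (K + 1))).filter (fun N : ℕ => ¬ T ≤ |(P f S N : ℝ) - G N|) with hB
  have hsum := card_filter_add_card_filter_not (s := Ioc a (a + (K + 1)))
    (fun N : ℕ => T ≤ |(P f S N : ℝ) - G N|)
  rw [Nat.card_Ioc] at hsum
  have hBcard : (B.card : ℝ) ≤ H / 8 + 1 := by
    rcases B.eq_empty_or_nonempty with hBe | hBn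
    · rw [hBe]; simp; positivity
    · set m := B.min' hBn with hm
      set M := B.max' hBn with hM
      have hmB : m ∈ B := B.min'_mem hBn
      have hMB : M ∈ B := B.max'_mem hBn
      have hmM : m ≤ M := B.min'_le _ hMB
      have hsub : B ⊆ Icc m M := by
        intro z hz
        exact mem_Icc.2 ⟨B.min'_le z hz, B.le_max' z hz⟩
      have hc1 : B.card ≤ M + 1 - m := by
        have := card_le_card hsub
        rwa [Nat.card_Icc] at this
      have hm2 := mem_filter.1 hmB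
      have hM2 := mem_filter.1 hMB
      have hPm := hconst m hm2.1
      have hPM := hconst M hM2.1
      have hm3 := hm2.2
      have hM3 := hM2.2
      push Not at hm3 hM3
      rw [hPm] at hm3
      rw [hPM] at hM3
      have hmI := mem_Ioc.1 hm2.1
      have hMI := mem_Ioc.1 hM2.1
      obtain ⟨k, hk⟩ : ∃ k, M = m + k := ⟨M - m, by omega⟩
      have h1 := incr hκ (G := G) (a := m) (by omega) k fun n hn1 hn2 => hG n (by omega) (by omega)
      rw [← hk] at h1
      have hG2 : G M - G m < 2 * T := by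
        have h2 := neg_abs_le ((P f S a : ℝ) - G M)
        have h3 := le_abs_self ((P f S a : ℝ) - G m)
        linarith
      have hMr : (M : ℝ) ≤ (x : ℝ) ^ 2 := by
        have : (M : ℝ) ≤ ((a + (K + 1) : ℕ) : ℝ) := by exact_mod_cast hMI.2
        linarith
      have hM1 : (1 : ℝ) < M := by
        exact_mod_cast (show 1 < M by omega)
      have hlogM : Real.log M ≤ 2 * Real.log x := by
        have h1 := Real.log_le_log (by linarith) hMr
        rw [Real.log_pow] at h1
        exact_mod_cast h1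
      have hlogM0 : 0 < Real.log M := Real.log_pos hM1
      have h4 : κ * (k / (2 * Real.log x)) ≤ κ * (k / Real.log M) := by
        apply mul_le_mul_of_nonneg_left _ hκ
        exact div_le_div_of_nonneg_left (Nat.cast_nonneg k) hlogM0 hlogM
      have h5 : κ * (k / (2 * Real.log x)) < κ * (2 * (H / (32 * Real.log x))) := by
        have : 2 * T = κ * (2 * (H / (32 * Real.log x))) := by rw [hTH]; ring
        rw [← this]
        linarith
      have h6 := lt_of_mul_lt_mul_left h5 hκ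
      have h7 : (k : ℝ) < H / 8 := by
        have e1 : 2 * (H / (32 * Real.log x)) = (H / 8) / (2 * Real.log x) := by
          field_simp; norm_num
        rw [e1] at h6
        exact (div_lt_div_iff_of_pos_right (by positivity)).1 h6
      have hc2 : B.card ≤ k + 1 := by omega
      have hc3 : (B.card : ℝ) ≤ k + 1 := by exact_mod_cast hc2
      linarith
  have e1 : a + (K + 1) - a = K + 1 := by omega
  rw [e1] at hsum
  have hsum' : (((Ioc a (a + (K + 1))).filter (fun N : ℕ => T ≤ |(P f S N : ℝ) - G N|)).card : ℝ) +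
      (B.card : ℝ) = K + 1 := by
    rw [hB]; exact_mod_cast hsum
  push_cast
  have hKK : (0 : ℝ) ≤ K := Nat.cast_nonneg K
  linarith

end Pool.Agent.U53.BH
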